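import Pool.Agent.W809.JS.Stm

set_option autoImplicit false

open MeasureTheory Filter Topology Set Metric Real
open Pool.Agent.Results.MP_5c297c_an.NotJessen
open Pool.Agent.W809.JS

namespace Pool.Agent.W880.JS

theorem key_id (R : ℝ) (u v : ℂ) :
    ‖(R : ℂ) ^ 2 - (starRingEnd ℂ) v * u‖ ^ 2 - (R * ‖u - v‖) ^ 2
      = (R ^ 2 - ‖u‖ ^ 2) * (R ^ 2 - ‖v‖ ^ 2) := by
  rw [mul_pow, Complex.sq_norm, Complex.sq_norm, Complex.sq_norm, Complex.sq_norm,
    Complex.normSq_apply, Complex.normSq_apply, Complex.normSq_apply, Complex.normSq_apply]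
  have h1 : ((R : ℂ) ^ 2).re = R ^ 2 := by rw [← Complex.ofReal_pow]; exact Complex.ofReal_re _
  have h2 : ((R : ℂ) ^ 2).im = 0 := by rw [← Complex.ofReal_pow]; exact Complex.ofReal_im _
  simp only [Complex.sub_re, Complex.sub_im, Complex.mul_re, Complex.mul_im, Complex.conj_re,
    Complex.conj_im, h1, h2]
  ring

/-- the denominator -/
noncomputable def den (s : ℝ) (c a z : ℂ) : ℂ :=
  ((8 * (s : ℂ)) ^ 2 - (starRingEnd ℂ) (a - c) * (z - c))

theorem den_ne {s : ℝ} {c a z : ℂ} (hs : 0 < s) (ha : a ∈ closedBall c (4 * s))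
    (hz : z ∈ closedBall c (8 * s)) : den s c a z ≠ 0 := by
  intro h
  rw [den, sub_eq_zero] at h
  have h1 := congrArg norm h
  rw [norm_mul, RCLike.norm_conj, norm_pow, norm_mul, Complex.norm_real, Real.norm_of_nonneg hs.le]
    at h1
  rw [mem_closedBall, dist_eq_norm] at ha hz
  have h2 : ‖a - c‖ * ‖z - c‖ ≤ (4 * s) * (8 * s) :=
    mul_le_mul ha hz (norm_nonneg _) (by positivity)
  rw [← h1] at h2
  norm_num at h2
  nlinarith

theorem bl_eq (s : ℝ) (c a z : ℂ) : bl s c a z = (8 * (s : ℂ)) * (z - a) / den s c a z := rfl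

theorem norm_bl_sq {s : ℝ} {c a z : ℂ} (hs : 0 < s) (ha : a ∈ closedBall c (4 * s))
    (hz : z ∈ closedBall c (8 * s)) :
    1 - ‖bl s c a z‖ ^ 2
      = ((8 * s) ^ 2 - ‖z - c‖ ^ 2) * ((8 * s) ^ 2 - ‖a - c‖ ^ 2) / ‖den s c a z‖ ^ 2 := by
  have hd := den_ne hs ha hz
  have hd' : ‖den s c a z‖ ≠ 0 := norm_ne_zero_iff.2 hd
  have h := key_id (8 * s) (z - c) (a - c)
  rw [← h, bl_eq, norm_div, norm_mul, norm_mul, Complex.norm_real, Real.norm_of_nonneg hs.le]
  have e1 : z - c - (a - c) = z - a := by ring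
  have e2 : (((8 * s : ℝ) : ℂ) ^ 2 - (starRingEnd ℂ) (a - c) * (z - c)) = den s c a z := by
    rw [den]; push_cast; ring
  rw [e1, e2]
  have e3 : ‖(8 : ℂ)‖ = 8 := by simp
  rw [e3]
  field_simp

theorem norm_bl_le {s : ℝ} {c a z : ℂ} (hs : 0 < s) (ha : a ∈ closedBall c (4 * s))
    (hz : z ∈ closedBall c (8 * s)) : ‖bl s c a z‖ ≤ 1 := by
  have h := norm_bl_sq hs ha hz
  rw [mem_closedBall, dist_eq_norm] at ha hz
  have h1 : 0 ≤ (8 * s) ^ 2 - ‖z - c‖ ^ 2 := by nlinarith [norm_nonneg (z - c)]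
  have h2 : 0 ≤ (8 * s) ^ 2 - ‖a - c‖ ^ 2 := by nlinarith [norm_nonneg (a - c)]
  have h3 : 0 ≤ 1 - ‖bl s c a z‖ ^ 2 := by rw [h]; positivity
  nlinarith [norm_nonneg (bl s c a z)]

theorem norm_bl_sphere {s : ℝ} {c a z : ℂ} (hs : 0 < s) (ha : a ∈ closedBall c (4 * s))
    (hz : z ∈ sphere c (8 * s)) : ‖bl s c a z‖ = 1 := by
  have h := norm_bl_sq hs ha (sphere_subset_closedBall hz)
  rw [mem_sphere, dist_eq_norm] at hz
  rw [hz, sub_self, zero_mul, zero_div] at h
  have h3 : ‖bl s c a z‖ ^ 2 = 1 := by linarith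
  exact (pow_eq_one_iff_of_nonneg (norm_nonneg _) two_ne_zero).1 h3

theorem norm_bl_centre {s : ℝ} {c a : ℂ} (hs : 0 < s) (ha : a ∈ closedBall c (4 * s)) :
    ‖bl s c a c‖ ≤ 1 / 2 := by
  rw [mem_closedBall, dist_eq_norm] at ha
  have h : bl s c a c = (c - a) / (8 * (s : ℂ)) := by
    have : (s : ℂ) ≠ 0 := by exact_mod_cast hs.ne'
    rw [bl_eq, den, sub_self, mul_zero, sub_zero]
    field_simp
  rw [h, norm_div, norm_mul, Complex.norm_real, Real.norm_of_nonneg hs.le, norm_sub_rev]
  have e3 : ‖(8 : ℂ)‖ = 8 := by simp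
  rw [e3, div_le_div_iff₀ (by positivity) (by norm_num)]
  linarith

theorem dfc_mul {M : ℝ} {u v : ℂ} (hu : ‖u‖ ≤ 1) (hv : ‖v‖ ≤ Real.exp M) :
    dfc M (u * v) = dfc 0 u + dfc M v := by
  unfold dfc
  by_cases hu0 : u = 0
  · simp [hu0]
  by_cases hv0 : v = 0
  · simp [hv0]
  rw [if_neg (mul_ne_zero hu0 hv0), if_neg hu0, if_neg hv0, norm_mul,
    Real.log_mul (norm_ne_zero_iff.2 hu0) (norm_ne_zero_iff.2 hv0)]
  have h1 : Real.log ‖u‖ ≤ 0 := Real.log_nonpos (norm_nonneg _) hu
  have h2 : Real.log ‖v‖ ≤ M := by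
    rw [Real.log_le_iff_le_exp (norm_pos_iff.2 hv0)]; exact hv
  rw [← ENNReal.ofReal_add (by linarith) (by linarith)]
  congr 1
  ring

/-- the deficit of the Blaschke factor at the centre -/
theorem dfc_bl_centre {s : ℝ} {c a : ℂ} (hs : 0 < s) (ha : a ∈ closedBall c (4 * s)) :
    ENNReal.ofReal (Real.log 2) ≤ dfc 0 (bl s c a c) := by
  unfold dfc
  split_ifs with h
  · exact le_top
  · refine ENNReal.ofReal_le_ofReal ?_
    have h1 := Real.log_le_log (norm_pos_iff.2 h) (norm_bl_centre hs ha)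
    rw [one_div, Real.log_inv] at h1
    linarith

theorem exists_factor {s M : ℝ} {c a : ℂ} {G : ℂ → ℂ} (hs : 0 < s) (hG : Good s M c G)
    (ha : a ∈ closedBall c (4 * s)) (hGa : G a = 0) :
    ∃ H, Good s M c H ∧ ∀ z ∈ closedBall c (8 * s), G z = bl s c a z * H z := by
  obtain ⟨hm, han, hb⟩ := hG
  have hs' : (s : ℂ) ≠ 0 := by exact_mod_cast hs.ne'
  have ha8 : a ∈ closedBall c (8 * s) :=
    closedBall_subset_closedBall (by linarith) ha
  obtain ⟨H, hH⟩ : ∃ H : ℂ → ℂ, H = fun z => dslope G a z * den s c a z / (8 * (s : ℂ)) := ⟨_, rfl⟩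
  have hfac : ∀ z ∈ closedBall c (8 * s), G z = bl s c a z * H z := by
    intro z hz
    have hd := den_ne hs ha hz
    have h1 := sub_smul_dslope G a z
    rw [hGa, sub_zero, smul_eq_mul] at h1
    rw [hH, bl_eq, ← h1]
    field_simp
  have hmeas : Measurable H := by
    have h1 : Measurable (dslope G a) := by
      have : dslope G a = fun z => if z = a then deriv G a else (z - a)⁻¹ * (G z - G a) := by
        funext z
        by_cases hz : z = a
        · rw [if_pos hz, hz, dslope_same]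
        · rw [if_neg hz, dslope_of_ne _ hz, slope_def_field, div_eq_inv_mul]
      rw [this]
      refine Measurable.ite (measurableSet_singleton a) measurable_const ?_
      fun_prop
    have h2 : Measurable (den s c a) := by unfold den; fun_prop
    rw [hH]
    exact (h1.mul h2).div_const _
  have hanal : AnalyticOnNhd ℂ H (closedBall c (8 * s)) := by
    obtain ⟨U, hU⟩ : ∃ U : Set ℂ, U = {z | AnalyticAt ℂ G z} := ⟨_, rfl⟩
    have hUo : IsOpen U := by rw [hU]; exact isOpen_analyticAt ℂ G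
    have hsub : closedBall c (8 * s) ⊆ U := by
      intro z hz; rw [hU]; exact han z hz
    have hd1 : DifferentiableOn ℂ G U := by
      intro z hz
      rw [hU] at hz
      exact (AnalyticAt.differentiableAt hz).differentiableWithinAt
    have hd2 : DifferentiableOn ℂ (dslope G a) U :=
      (Complex.differentiableOn_dslope (hUo.mem_nhds (hsub ha8))).2 hd1
    have hd3 : DifferentiableOn ℂ H U := by
      rw [hH]
      have h2 : Differentiable ℂ (den s c a) := by unfold den; fun_prop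
      exact (hd2.mul h2.differentiableOn).div_const _
    exact (hd3.analyticOnNhd hUo).mono hsub
  refine ⟨H, ⟨hmeas, hanal, ?_⟩, hfac⟩
  intro z hz
  have hdc : DiffContOnCl ℂ H (ball c (8 * s)) := by
    refine DifferentiableOn.diffContOnCl ?_
    rw [closure_ball c (by positivity : (8 * s) ≠ 0)]
    exact hanal.differentiableOn
  refine Complex.norm_le_of_forall_mem_frontier_norm_le isBounded_ball hdc ?_
    (by rw [closure_ball c (by positivity : (8 * s) ≠ 0)]; exact hz)
  intro w hw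
  rw [frontier_ball c (by positivity : (8 * s) ≠ 0)] at hw
  have h1 := hfac w (sphere_subset_closedBall hw)
  have h2 := hb w (sphere_subset_closedBall hw)
  rw [h1, norm_mul, norm_bl_sphere hs ha hw, one_mul] at h2
  exact h2

theorem ind : S_IND := by
  intro s M c hs hM Pr h1 h2
  have key : ∀ N : ℕ, ∀ G, Good s M c G → G c ≠ 0 → M - Real.log ‖G c‖ ≤ N * Real.log 2 → Pr G := by
    have step : ∀ G, Good s M c G → G c ≠ 0 → ∀ t : ℝ, M - Real.log ‖G c‖ ≤ t →
        (∀ H, Good s M c H → H c ≠ 0 → 0 ≤ M - Real.log ‖H c‖ →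
          M - Real.log ‖H c‖ ≤ t - Real.log 2 → Pr H) → Pr G := by
      intro G hG hc t ht ih
      by_cases hz : ∀ z ∈ closedBall c (4 * s), G z ≠ 0
      · exact h1 G hG hz
      push Not at hz
      obtain ⟨a, ha, hGa⟩ := hz
      obtain ⟨H, hH, hfac⟩ := exists_factor hs hG ha hGa
      have hac : a ≠ c := by
        intro h
        rw [h] at hGa
        exact hc hGa
      have hcc := hfac c (mem_closedBall_self (by positivity))
      have hbc : bl s c a c ≠ 0 := by
        intro h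
        rw [h, zero_mul] at hcc
        exact hc hcc
      have hHc : H c ≠ 0 := by
        intro h
        rw [h, mul_zero] at hcc
        exact hc hcc
      refine h2 G H a hG hH ha hac hHc hfac (ih H hH hHc ?_ ?_)
      · have h3 := hH.2.2 c (mem_closedBall_self (by positivity))
        rw [← Real.log_le_iff_le_exp (norm_pos_iff.2 hHc)] at h3
        linarith
      · have h3 : Real.log ‖G c‖ = Real.log ‖bl s c a c‖ + Real.log ‖H c‖ := by
          rw [hcc, norm_mul, Real.log_mul (norm_ne_zero_iff.2 hbc) (norm_ne_zero_iff.2 hHc)]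
        have h4 := Real.log_le_log (norm_pos_iff.2 hbc) (norm_bl_centre hs ha)
        rw [one_div, Real.log_inv] at h4
        linarith
    intro N
    induction N with
    | zero =>
      intro G hG hc hN
      refine step G hG hc _ hN ?_
      intro H _ _ h3 h4
      have := Real.log_pos (one_lt_two)
      exfalso
      push_cast at h4
      linarith
    | succ N ih =>
      intro G hG hc hN
      refine step G hG hc _ hN ?_
      intro H hH hHc h3 h4
      refine ih H hH hHc ?_
      push_cast at h4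
      linarith
  intro G hG hc
  obtain ⟨N, hN⟩ := exists_nat_ge ((M - Real.log ‖G c‖) / Real.log 2)
  refine key N G hG hc ?_
  rwa [div_le_iff₀ (Real.log_pos (by norm_num))] at hN

end Pool.Agent.W880.JS
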