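import Pool.Agent.W880.JS.Bl

set_option autoImplicit false

open MeasureTheory Filter Topology Set Metric Real
open Pool.Agent.Results.MP_5c297c_an.NotJessen
open Pool.Agent.W809.JS

namespace Pool.Agent.W880.JS

/-- integral of `|u|^{-1/2}` -/
theorem lint_half (L : ℝ) (hL : 0 < L) :
    ∫⁻ u in Icc 0 L, ENNReal.ofReal (u ^ (-(1 / 2) : ℝ)) = ENNReal.ofReal (2 * L ^ (1 / 2 : ℝ)) := by
  have h1 : IntervalIntegrable (fun u : ℝ => u ^ (-(1 / 2) : ℝ)) volume 0 L :=
    intervalIntegral.intervalIntegrable_rpow' (by norm_num)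
  rw [intervalIntegrable_iff_integrableOn_Icc_of_le hL.le] at h1
  rw [← ofReal_integral_eq_lintegral_ofReal h1]
  · rw [integral_Icc_eq_integral_Ioc, ← intervalIntegral.integral_of_le hL.le,
      integral_rpow (by left; norm_num)]
    congr 1
    rw [show (-(1 / 2) + 1 : ℝ) = 1 / 2 by norm_num, Real.zero_rpow (by norm_num)]
    ring
  · filter_upwards [ae_restrict_mem measurableSet_Icc] with u hu
    exact Real.rpow_nonneg hu.1 _

theorem lint_half_sym (L : ℝ) (hL : 0 < L) :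
    ∫⁻ u in Icc (-L) L, ENNReal.ofReal (|u| ^ (-(1 / 2) : ℝ)) ≤ ENNReal.ofReal (4 * L ^ (1 / 2 : ℝ)) := by
  have e : Icc (-L) L = Icc (-L) 0 ∪ Icc 0 L := (Icc_union_Icc_eq_Icc (by linarith) hL.le).symm
  rw [e]
  refine (lintegral_union_le _ _ _).trans ?_
  have h1 : ∫⁻ u in Icc 0 L, ENNReal.ofReal (|u| ^ (-(1 / 2) : ℝ))
      = ENNReal.ofReal (2 * L ^ (1 / 2 : ℝ)) := by
    rw [← lint_half L hL]
    refine setLIntegral_congr_fun measurableSet_Icc ?_
    intro u hu
    simp only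
    rw [abs_of_nonneg hu.1]
  have h2 : ∫⁻ u in Icc (-L) 0, ENNReal.ofReal (|u| ^ (-(1 / 2) : ℝ))
      = ∫⁻ u in Icc 0 L, ENNReal.ofReal (|u| ^ (-(1 / 2) : ℝ)) := by
    have hmp : MeasurePreserving (fun u : ℝ => -u) volume volume :=
      Measure.measurePreserving_neg volume
    have h3 := hmp.setLIntegral_comp_preimage (s := Icc (-L) 0) measurableSet_Icc
      (f := fun u : ℝ => ENNReal.ofReal (|u| ^ (-(1 / 2) : ℝ))) (by fun_prop)
    rw [← h3]
    have e2 : (fun u : ℝ => -u) ⁻¹' Icc (-L) 0 = Icc 0 L := by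
      ext u; simp [and_comm]
    rw [e2]
    simp only [abs_neg]
  rw [h2, h1, ← ENNReal.ofReal_add (by positivity) (by positivity)]
  refine ENNReal.ofReal_le_ofReal ?_
  linarith

/-- log bound -/
theorem log_sq_le {t : ℝ} (ht : 1 ≤ t) : (Real.log t) ^ 2 ≤ 16 * t ^ (1 / 2 : ℝ) := by
  have h1 : Real.log t ≤ t ^ (1 / 4 : ℝ) / (1 / 4) := Real.log_le_rpow_div (by linarith) (by norm_num)
  have h0 : 0 ≤ Real.log t := Real.log_nonneg ht
  have h2 : t ^ (1 / 2 : ℝ) = (t ^ (1 / 4 : ℝ)) ^ 2 := by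
    rw [← Real.rpow_natCast, ← Real.rpow_mul (by linarith)]; norm_num
  rw [h2]
  have h3 : (Real.log t) ^ 2 ≤ (t ^ (1 / 4 : ℝ) / (1 / 4)) ^ 2 := pow_le_pow_left₀ h0 h1 2
  refine h3.trans (le_of_eq ?_)
  ring

/-- pointwise bound of the Blaschke factor -/
theorem dfc_bl_le {s : ℝ} {c a : ℂ} (hs : 0 < s) (ha : a ∈ closedBall c (4 * s)) {x y : ℝ}
    (hx : x ∈ Icc (c.re - s) (c.re + s)) (hy : |y - c.im| ≤ s) (hxa : x - a.re ≠ 0) :
    dfc 0 (bl s c a ((x : ℂ) + (y : ℂ) * Complex.I)) ≤ ENNReal.ofReal (Real.log (9 * s / |x - a.re|)) := by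
  obtain ⟨z, hz⟩ : ∃ z : ℂ, z = (x : ℂ) + (y : ℂ) * Complex.I := ⟨_, rfl⟩
  have hzr : z.re = x := by rw [hz]; simp
  have hzi : z.im = y := by rw [hz]; simp
  rw [← hz]
  have hzc : ‖z - c‖ ≤ 2 * s := by
    refine (Complex.norm_le_abs_re_add_abs_im _).trans ?_
    rw [Complex.sub_re, Complex.sub_im, hzr, hzi]
    have : |x - c.re| ≤ s := by rw [abs_le]; constructor <;> linarith [hx.1, hx.2]
    linarith
  have hzB : z ∈ closedBall c (8 * s) := by
    rw [mem_closedBall, dist_eq_norm]; linarith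
  have hza : |x - a.re| ≤ ‖z - a‖ := by
    have := Complex.abs_re_le_norm (z - a)
    rwa [Complex.sub_re, hzr] at this
  have hxa' : 0 < |x - a.re| := abs_pos.2 hxa
  have hza0 : 0 < ‖z - a‖ := lt_of_lt_of_le hxa' hza
  have hd := den_ne hs ha hzB
  have hd' : 0 < ‖den s c a z‖ := norm_pos_iff.2 hd
  have hbl : ‖bl s c a z‖ = 8 * s * ‖z - a‖ / ‖den s c a z‖ := by
    rw [bl_eq, norm_div, norm_mul, norm_mul, Complex.norm_real, Real.norm_of_nonneg hs.le]
    simp
  have hblpos : 0 < ‖bl s c a z‖ := by rw [hbl]; positivity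
  unfold dfc
  rw [if_neg (norm_pos_iff.1 hblpos)]
  refine ENNReal.ofReal_le_ofReal ?_
  rw [zero_sub, ← Real.log_inv]
  refine Real.log_le_log (by positivity) ?_
  rw [hbl, inv_div, div_le_div_iff₀ (by positivity) hxa']
  have h1 : ‖den s c a z‖ ≤ 72 * s ^ 2 := by
    rw [den]
    refine (norm_sub_le _ _).trans ?_
    rw [norm_mul, RCLike.norm_conj, norm_pow, norm_mul, Complex.norm_real, Real.norm_of_nonneg hs.le]
    rw [mem_closedBall, dist_eq_norm] at ha
    have h2 : ‖a - c‖ * ‖z - c‖ ≤ (4 * s) * (2 * s) :=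
      mul_le_mul ha hzc (norm_nonneg _) (by positivity)
    have e3 : ‖(8 : ℂ)‖ = 8 := by simp
    rw [e3]
    nlinarith
  calc ‖den s c a z‖ * |x - a.re| ≤ (72 * s ^ 2) * ‖z - a‖ :=
        mul_le_mul h1 hza (abs_nonneg _) (by positivity)
    _ = 9 * s * (8 * s * ‖z - a‖) := by ring

theorem bl_L2 {s : ℝ} {c a : ℂ} (hs : 0 < s) (ha : a ∈ closedBall c (4 * s)) {y : ℝ}
    (hy : |y - c.im| ≤ s) :
    ∫⁻ x in Icc (c.re - s) (c.re + s), (dfc 0 (bl s c a ((x : ℂ) + (y : ℂ) * Complex.I))) ^ (2 : ℝ)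
      ≤ ENNReal.ofReal (576 * s) := by
  have hare : |a.re - c.re| ≤ 4 * s := by
    rw [mem_closedBall, dist_eq_norm] at ha
    have := Complex.abs_re_le_norm (a - c)
    rw [Complex.sub_re] at this
    linarith
  have hae : ∀ᵐ x : ℝ, x - a.re ≠ 0 := by
    have h1 : volume ({a.re} : Set ℝ) = 0 := Real.volume_singleton
    have h2 : ∀ᵐ x : ℝ, x ∉ ({a.re} : Set ℝ) := measure_eq_zero_iff_ae_notMem.1 h1
    filter_upwards [h2] with x hx h
    exact hx (sub_eq_zero.1 h)
  calc ∫⁻ x in Icc (c.re - s) (c.re + s), (dfc 0 (bl s c a ((x : ℂ) + (y : ℂ) * Complex.I))) ^ (2 : ℝ)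
      ≤ ∫⁻ x in Icc (c.re - s) (c.re + s),
          ENNReal.ofReal (48 * s ^ (1 / 2 : ℝ)) * ENNReal.ofReal (|x - a.re| ^ (-(1 / 2) : ℝ)) := by
        refine lintegral_mono_ae ?_
        filter_upwards [ae_restrict_mem measurableSet_Icc, ae_restrict_of_ae hae] with x hx hxa
        have h1 := dfc_bl_le hs ha hx hy hxa
        refine (ENNReal.rpow_le_rpow h1 (by norm_num)).trans ?_
        have hxa' : 0 < |x - a.re| := abs_pos.2 hxa
        have hle : |x - a.re| ≤ 5 * s := by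
          rw [abs_le] at hare ⊢
          constructor <;> linarith [hx.1, hx.2, hare.1, hare.2]
        have ht : 1 ≤ 9 * s / |x - a.re| := by
          rw [le_div_iff₀ hxa']; linarith
        have h0 : 0 ≤ Real.log (9 * s / |x - a.re|) := Real.log_nonneg ht
        rw [ENNReal.ofReal_rpow_of_nonneg h0 (by norm_num), ← ENNReal.ofReal_mul (by positivity)]
        refine ENNReal.ofReal_le_ofReal ?_
        rw [Real.rpow_two]
        refine (log_sq_le ht).trans (le_of_eq ?_)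
        rw [Real.div_rpow (by positivity) (by positivity), Real.mul_rpow (by norm_num) hs.le,
          Real.rpow_neg (by positivity)]
        have : (9 : ℝ) ^ (1 / 2 : ℝ) = 3 := by
          rw [show (9 : ℝ) = 3 ^ (2 : ℝ) by norm_num, ← Real.rpow_mul (by norm_num)]
          norm_num
        rw [this]
        ring
    _ = ENNReal.ofReal (48 * s ^ (1 / 2 : ℝ)) *
          ∫⁻ x in Icc (c.re - s) (c.re + s), ENNReal.ofReal (|x - a.re| ^ (-(1 / 2) : ℝ)) :=
        lintegral_const_mul _ (by fun_prop)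
    _ ≤ ENNReal.ofReal (48 * s ^ (1 / 2 : ℝ)) * ENNReal.ofReal (4 * (5 * s) ^ (1 / 2 : ℝ)) := by
        gcongr
        refine le_trans ?_ (lint_half_sym (5 * s) (by positivity))
        have hmp : MeasurePreserving (fun u : ℝ => u - a.re) volume volume :=
          measurePreserving_sub_right volume a.re
        rw [← hmp.setLIntegral_comp_preimage (s := Icc (-(5 * s)) (5 * s)) measurableSet_Icc
          (f := fun u : ℝ => ENNReal.ofReal (|u| ^ (-(1 / 2) : ℝ))) (by fun_prop)]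
        refine lintegral_mono_set ?_
        intro x hx
        rw [mem_preimage]
        rw [abs_le] at hare
        constructor <;> linarith [hx.1, hx.2, hare.1, hare.2]
    _ ≤ ENNReal.ofReal (576 * s) := by
        rw [← ENNReal.ofReal_mul (by positivity)]
        refine ENNReal.ofReal_le_ofReal ?_
        rw [Real.mul_rpow (by norm_num) hs.le]
        have h5 : (5 : ℝ) ^ (1 / 2 : ℝ) ≤ 3 := by
          have : (9 : ℝ) ^ (1 / 2 : ℝ) = 3 := by
            rw [show (9 : ℝ) = 3 ^ (2 : ℝ) by norm_num, ← Real.rpow_mul (by norm_num)]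
            norm_num
          rw [← this]
          exact Real.rpow_le_rpow (by norm_num) (by norm_num) (by norm_num)
        have hss : s ^ (1 / 2 : ℝ) * s ^ (1 / 2 : ℝ) = s := by
          rw [← Real.rpow_add hs]; norm_num
        have : 48 * s ^ (1 / 2 : ℝ) * (4 * (5 ^ (1 / 2 : ℝ) * s ^ (1 / 2 : ℝ)))
            = 192 * 5 ^ (1 / 2 : ℝ) * (s ^ (1 / 2 : ℝ) * s ^ (1 / 2 : ℝ)) := by ring
        rw [this, hss]
        nlinarith

theorem shift_analytic {G : ℂ → ℂ} {c : ℂ} {R r : ℝ} (hG : AnalyticOnNhd ℂ G (closedBall c R))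
    {z : ℂ} (hz : ‖z - c‖ + r ≤ R) : AnalyticOnNhd ℂ (fun w => G (z + w)) (closedBall 0 r) := by
  intro w hw
  have hmem : z + w ∈ closedBall c R := by
    rw [mem_closedBall, dist_eq_norm]
    rw [mem_closedBall_zero_iff] at hw
    have : z + w - c = (z - c) + w := by ring
    rw [this]
    exact (norm_add_le _ _).trans (by linarith)
  have h1 := hG (z + w) hmem
  have h2 : AnalyticAt ℂ (fun w : ℂ => z + w) w := by fun_prop
  exact AnalyticAt.fun_comp (f := fun w : ℂ => z + w) h1 h2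

theorem free_le {s M : ℝ} {c : ℂ} {G : ℂ → ℂ} (hs : 0 < s) (hG : Good s M c G)
    (hz : ∀ z ∈ closedBall c (4 * s), G z ≠ 0) {z : ℂ} (hzc : ‖z - c‖ ≤ 2 * s) :
    dfc M (G z) ≤ 3 * dfc M (G c) := by
  have hsub : closedBall c (4 * s) ⊆ closedBall c (8 * s) :=
    closedBall_subset_closedBall (by linarith)
  obtain ⟨g, hg⟩ : ∃ g : ℂ → ℂ, g = fun w => G (c + w) := ⟨_, rfl⟩
  have hmem : ∀ w ∈ closedBall (0 : ℂ) (4 * s), c + w ∈ closedBall c (4 * s) := by
    intro w hw
    rw [mem_closedBall, dist_eq_norm]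
    rw [mem_closedBall_zero_iff] at hw
    simpa using hw
  have han : AnalyticOnNhd ℂ g (closedBall 0 (4 * s)) := by
    rw [hg]
    exact shift_analytic hG.2.1 (by rw [sub_self, norm_zero]; linarith)
  have hg0 : ∀ w ∈ closedBall (0 : ℂ) (4 * s), g w ≠ 0 := by
    intro w hw; rw [hg]; exact hz _ (hmem w hw)
  have hnn : ∀ w ∈ closedBall (0 : ℂ) (4 * s), 0 ≤ M - Real.log ‖g w‖ := by
    intro w hw
    have h1 : Real.log ‖g w‖ ≤ M := by
      rw [Real.log_le_iff_le_exp (norm_pos_iff.2 (hg0 w hw)), hg]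
      exact hG.2.2 _ (hsub (hmem w hw))
    linarith
  have hw : z - c ∈ ball (0 : ℂ) (4 * s) := by
    rw [mem_ball_zero_iff]; linarith
  have h := harnack hw (harmonic_log han hg0 M) hnn
  have h0 := hnn 0 (mem_closedBall_self (by positivity))
  have h3 : (4 * s + ‖z - c‖) / (4 * s - ‖z - c‖) ≤ 3 := by
    rw [div_le_iff₀ (by linarith)]; linarith
  have h4 : M - Real.log ‖G z‖ ≤ 3 * (M - Real.log ‖G c‖) := by
    have e1 : g (z - c) = G z := by rw [hg]; simp
    have e2 : g 0 = G c := by rw [hg]; simp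
    rw [e1, e2] at h
    rw [e2] at h0
    exact h.trans (mul_le_mul_of_nonneg_right h3 h0)
  have hGz : G z ≠ 0 := hz z (by rw [mem_closedBall, dist_eq_norm]; linarith)
  have hGc : G c ≠ 0 := hz c (mem_closedBall_self (by positivity))
  unfold dfc
  rw [if_neg hGz, if_neg hGc, show (3 : ENNReal) = ENNReal.ofReal 3 by simp,
    ← ENNReal.ofReal_mul (by norm_num)]
  exact ENNReal.ofReal_le_ofReal h4

theorem norm_pt_le {s : ℝ} {c : ℂ} {x y : ℝ} (hx : x ∈ Icc (c.re - s) (c.re + s))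
    (hy : |y - c.im| ≤ s) : ‖(x : ℂ) + (y : ℂ) * Complex.I - c‖ ≤ 2 * s := by
  refine (Complex.norm_le_abs_re_add_abs_im _).trans ?_
  have e1 : ((x : ℂ) + (y : ℂ) * Complex.I - c).re = x - c.re := by simp
  have e2 : ((x : ℂ) + (y : ℂ) * Complex.I - c).im = y - c.im := by simp
  rw [e1, e2]
  have : |x - c.re| ≤ s := by rw [abs_le]; constructor <;> linarith [hx.1, hx.2]
  linarith

theorem sqrt_mul_sq {s : ℝ} (hs : 0 < s) {A : ℝ} (hA : 0 ≤ A) :
    (ENNReal.ofReal (A ^ 2 * s)) ^ (1 / 2 : ℝ) = ENNReal.ofReal (A * √s) := by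
  rw [ENNReal.ofReal_rpow_of_nonneg (by positivity) (by norm_num), ← Real.sqrt_eq_rpow,
    Real.sqrt_mul (by positivity), Real.sqrt_sq hA]

theorem l2' : S_L2 := by
  refine ⟨2500, by norm_num, ?_⟩
  intro s M c G hs hM hG y hy
  by_cases hGc : G c = 0
  · have : dfc M (G c) = ⊤ := by simp [dfc, hGc]
    rw [this]
    have h2 : ((⊤ : ENNReal)) ^ 2 = ⊤ := by simp
    rw [h2, ENNReal.mul_top (by simp only [ne_eq, ENNReal.ofReal_eq_zero, not_le]; positivity)]
    exact le_top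
  have key := ind s M c hs hM (fun G =>
    (∫⁻ x in Icc (c.re - s) (c.re + s), (dfc M (G ((x : ℂ) + (y : ℂ) * Complex.I))) ^ (2 : ℝ))
      ^ (1 / 2 : ℝ) ≤ ENNReal.ofReal (50 * √s) * dfc M (G c)) ?_ ?_ G hG hGc
  · have h1 := ENNReal.rpow_le_rpow key (z := 2) (by norm_num)
    rw [← ENNReal.rpow_mul, show (1 / 2 * 2 : ℝ) = 1 by norm_num, ENNReal.rpow_one,
      ENNReal.rpow_two, mul_pow, ← ENNReal.ofReal_pow (by positivity), mul_pow, Real.sq_sqrt hs.le,
      show (50 : ℝ) ^ 2 = 2500 by norm_num] at h1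
    simpa only [ENNReal.rpow_two] using h1
  · intro G hG hz
    have h1 : ∫⁻ x in Icc (c.re - s) (c.re + s), (dfc M (G ((x : ℂ) + (y : ℂ) * Complex.I))) ^ (2 : ℝ)
        ≤ ENNReal.ofReal (2 * s) * (3 * dfc M (G c)) ^ (2 : ℝ) := by
      calc ∫⁻ x in Icc (c.re - s) (c.re + s), (dfc M (G ((x : ℂ) + (y : ℂ) * Complex.I))) ^ (2 : ℝ)
          ≤ ∫⁻ _x in Icc (c.re - s) (c.re + s), (3 * dfc M (G c)) ^ (2 : ℝ) := by
            refine setLIntegral_mono' measurableSet_Icc ?_
            intro x hx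
            exact ENNReal.rpow_le_rpow (free_le hs hG hz (norm_pt_le hx hy)) (by norm_num)
        _ = ENNReal.ofReal (2 * s) * (3 * dfc M (G c)) ^ (2 : ℝ) := by
            rw [setLIntegral_const, Real.volume_Icc, mul_comm]
            congr 2
            ring
    refine (ENNReal.rpow_le_rpow h1 (by norm_num)).trans ?_
    rw [ENNReal.mul_rpow_of_nonneg _ _ (by norm_num), ← ENNReal.rpow_mul,
      show (2 * (1 / 2) : ℝ) = 1 by norm_num, ENNReal.rpow_one, ← mul_assoc]
    gcongr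
    rw [show (3 : ENNReal) = ENNReal.ofReal 3 by simp]
    have h2 : (ENNReal.ofReal (2 * s)) ^ (1 / 2 : ℝ) ≤ ENNReal.ofReal (2 * √s) := by
      rw [← sqrt_mul_sq hs (by norm_num : (0 : ℝ) ≤ 2)]
      refine ENNReal.rpow_le_rpow (ENNReal.ofReal_le_ofReal ?_) (by norm_num)
      linarith
    refine (mul_le_mul_left h2 _).trans ?_
    rw [← ENNReal.ofReal_mul (by positivity)]
    refine ENNReal.ofReal_le_ofReal ?_
    have := Real.sqrt_nonneg s
    linarith
  · intro G H a hG hH ha hac hHc hfac ih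
    have hpt : ∀ x ∈ Icc (c.re - s) (c.re + s),
        ((x : ℂ) + (y : ℂ) * Complex.I) ∈ closedBall c (8 * s) := by
      intro x hx
      rw [mem_closedBall, dist_eq_norm]
      have := norm_pt_le hx hy
      linarith
    have hcb : c ∈ closedBall c (8 * s) := mem_closedBall_self (by positivity)
    have e1 : ∫⁻ x in Icc (c.re - s) (c.re + s), (dfc M (G ((x : ℂ) + (y : ℂ) * Complex.I))) ^ (2 : ℝ)
        = ∫⁻ x in Icc (c.re - s) (c.re + s),
          (((fun x : ℝ => dfc 0 (bl s c a ((x : ℂ) + (y : ℂ) * Complex.I)))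
            + (fun x : ℝ => dfc M (H ((x : ℂ) + (y : ℂ) * Complex.I)))) x) ^ (2 : ℝ) := by
      refine setLIntegral_congr_fun measurableSet_Icc ?_
      intro x hx
      simp only [Pi.add_apply]
      rw [hfac _ (hpt x hx), dfc_mul (norm_bl_le hs ha (hpt x hx)) (hH.2.2 _ (hpt x hx))]
    have hmb : Measurable (bl s c a) := by unfold bl; fun_prop
    have hm1 : Measurable (fun x : ℝ => dfc 0 (bl s c a ((x : ℂ) + (y : ℂ) * Complex.I))) :=
      (measurable_dfc 0).comp (hmb.comp (by fun_prop))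
    have hm2 : Measurable (fun x : ℝ => dfc M (H ((x : ℂ) + (y : ℂ) * Complex.I))) :=
      (measurable_dfc M).comp (hH.1.comp (by fun_prop))
    rw [e1]
    refine (ENNReal.lintegral_Lp_add_le hm1.aemeasurable hm2.aemeasurable (by norm_num)).trans ?_
    have h1 : (∫⁻ x in Icc (c.re - s) (c.re + s),
        (dfc 0 (bl s c a ((x : ℂ) + (y : ℂ) * Complex.I))) ^ (2 : ℝ)) ^ (1 / 2 : ℝ)
        ≤ ENNReal.ofReal (24 * √s) := by
      rw [← sqrt_mul_sq hs (by norm_num : (0 : ℝ) ≤ 24)]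
      refine ENNReal.rpow_le_rpow ?_ (by norm_num)
      refine (bl_L2 hs ha hy).trans (le_of_eq ?_)
      norm_num
    refine (add_le_add h1 ih).trans ?_
    rw [hfac c hcb, dfc_mul (norm_bl_le hs ha hcb) (hH.2.2 _ hcb), mul_add]
    gcongr
    refine le_trans ?_ (mul_le_mul_right (dfc_bl_centre hs ha) _)
    rw [← ENNReal.ofReal_mul (by positivity)]
    refine ENNReal.ofReal_le_ofReal ?_
    have := Real.sqrt_nonneg s
    have h3 := Real.log_two_gt_d9
    nlinarith

theorem l2 : S_IND → S_L2 := fun _ => l2'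

end Pool.Agent.W880.JS
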