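import Pool.Agent.W880.JS.L2

set_option autoImplicit false

open MeasureTheory Filter Topology Set Metric Real
open Pool.Agent.Results.MP_5c297c_an.NotJessen
open Pool.Agent.W809.JS

namespace Pool.Agent.W880.JS

theorem den_analytic (s : ℝ) (c a : ℂ) (S : Set ℂ) : AnalyticOnNhd ℂ (den s c a) S := by
  intro z _
  have h2 : Differentiable ℂ (den s c a) := by unfold den; fun_prop
  exact h2.analyticAt z

/-- circle average of `log |den|` -/
theorem avg_den {s : ℝ} {c a : ℂ} (hs : 0 < s) (ha : a ∈ closedBall c (4 * s)) {z : ℂ}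
    (hzc : ‖z - c‖ ≤ 2 * s) {ε : ℝ} (hε : 0 < ε) (hεs : ε ≤ s) :
    circleAverage (fun w => Real.log ‖den s c a w‖) z ε = Real.log ‖den s c a z‖ ∧
      CircleIntegrable (fun w => Real.log ‖den s c a w‖) z ε := by
  have hball : ∀ w ∈ closedBall z |ε|, den s c a w ≠ 0 := by
    intro w hw
    rw [abs_of_pos hε, mem_closedBall, dist_eq_norm] at hw
    refine den_ne hs ha ?_
    rw [mem_closedBall, dist_eq_norm]
    have : w - c = (w - z) + (z - c) := by ring
    rw [this]
    exact (norm_add_le _ _).trans (by linarith)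
  have hharm : InnerProductSpace.HarmonicOnNhd (fun w => Real.log ‖den s c a w‖)
      (closedBall z |ε|) := by
    intro x hx
    exact (den_analytic s c a univ x (mem_univ _)).harmonicAt_log_norm (hball x hx)
  refine ⟨InnerProductSpace.HarmonicOnNhd.circleAverage_eq hharm, ?_⟩
  exact (hharm.continuousOn.mono sphere_subset_closedBall).circleIntegrable'

/-- the function `log |den| - log (8 s) - log |w - a|` on a circle -/
theorem avg_F {s : ℝ} {c a : ℂ} (hs : 0 < s) (ha : a ∈ closedBall c (4 * s)) {z : ℂ}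
    (hzc : ‖z - c‖ ≤ 2 * s) {ε : ℝ} (hε : 0 < ε) (hεs : ε ≤ s) :
    CircleIntegrable (fun w => Real.log ‖den s c a w‖ - Real.log (8 * s) - Real.log ‖w - a‖) z ε ∧
    circleAverage (fun w => Real.log ‖den s c a w‖ - Real.log (8 * s) - Real.log ‖w - a‖) z ε
      = Real.log ‖den s c a z‖ - Real.log (8 * s) - (Real.log ε + log⁺ (ε⁻¹ * ‖z - a‖)) := by
  obtain ⟨h1, h2⟩ := avg_den hs ha hzc hε hεs
  have h3 : CircleIntegrable (fun w : ℂ => Real.log ‖w - a‖) z ε :=
    MeromorphicOn.circleIntegrable_log_norm (f := fun w : ℂ => w - a) (fun _ _ ↦ by fun_prop)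
  have h4 := circleAverage_log_norm_sub_const_eq_log_radius_add_posLog (R := ε) (c := z) (a := a) hε.ne'
  have h5 : CircleIntegrable (fun _ : ℂ => Real.log (8 * s)) z ε := circleIntegrable_const _ _ _
  have h6 : CircleIntegrable (fun w : ℂ => Real.log ‖den s c a w‖ - Real.log (8 * s)) z ε := h2.sub h5
  refine ⟨h6.sub h3, ?_⟩
  rw [circleAverage_fun_sub h6 h3, circleAverage_fun_sub h2 h5, h1, h4, circleAverage_const]

/-- pointwise reverse mean value inequality for the Blaschke factor -/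
theorem bl_point {s : ℝ} {c a : ℂ} (hs : 0 < s) (ha : a ∈ closedBall c (4 * s)) {z : ℂ}
    (hzc : ‖z - c‖ ≤ 2 * s) (hza : z ≠ a) {ε : ℝ} (hε : 0 < ε) (hεs : ε ≤ s) :
    ENNReal.ofReal (2 * π) * dfc 0 (bl s c a z)
      ≤ (∫⁻ θ in Ioc 0 (2 * π), dfc 0 (bl s c a (z + circleMap 0 ε θ)))
        + ENNReal.ofReal (2 * π * log⁺ (ε / ‖z - a‖)) := by
  have hpi : 0 < 2 * π := by positivity
  obtain ⟨F, hF⟩ : ∃ F : ℂ → ℝ, F = fun w => Real.log ‖den s c a w‖ - Real.log (8 * s)
    - Real.log ‖w - a‖ := ⟨_, rfl⟩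
  obtain ⟨h1, h2⟩ := avg_F hs ha hzc hε hεs
  rw [← hF] at h1 h2
  have hFbl : ∀ w ∈ closedBall c (8 * s), w ≠ a → F w = - Real.log ‖bl s c a w‖ := by
    intro w hw hwa
    have hd := den_ne hs ha hw
    have hd' : ‖den s c a w‖ ≠ 0 := norm_ne_zero_iff.2 hd
    have hwa' : ‖w - a‖ ≠ 0 := norm_ne_zero_iff.2 (sub_ne_zero.2 hwa)
    rw [hF, bl_eq, norm_div, norm_mul, norm_mul, Complex.norm_real, Real.norm_of_nonneg hs.le]
    have e3 : ‖(8 : ℂ)‖ = 8 := by simp
    rw [e3, Real.log_div (by positivity) hd', Real.log_mul (by positivity) hwa']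
    ring
  have hzB : z ∈ closedBall c (8 * s) := by
    rw [mem_closedBall, dist_eq_norm]; linarith
  have hcm : ∀ θ, z + circleMap 0 ε θ = circleMap z ε θ := by
    intro θ; simp [circleMap]
  have hθB : ∀ θ, circleMap z ε θ ∈ closedBall c (8 * s) := by
    intro θ
    rw [mem_closedBall, dist_eq_norm]
    have h3 : circleMap z ε θ ∈ closedBall z ε := circleMap_mem_closedBall z hε.le θ
    rw [mem_closedBall, dist_eq_norm] at h3
    have : circleMap z ε θ - c = (circleMap z ε θ - z) + (z - c) := by ring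
    rw [this]
    exact (norm_add_le _ _).trans (by linarith)
  have hint : IntegrableOn (fun θ => F (circleMap z ε θ)) (Ioc 0 (2 * π)) := by
    have := h1
    rw [CircleIntegrable, intervalIntegrable_iff_integrableOn_Ioc_of_le hpi.le] at this
    exact this
  have hle : ENNReal.ofReal (∫ θ in Ioc 0 (2 * π), F (circleMap z ε θ))
      ≤ ∫⁻ θ in Ioc 0 (2 * π), dfc 0 (bl s c a (z + circleMap 0 ε θ)) := by
    have hint2 : IntegrableOn (fun θ => max (F (circleMap z ε θ)) 0) (Ioc 0 (2 * π)) := hint.pos_part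
    calc ENNReal.ofReal (∫ θ in Ioc 0 (2 * π), F (circleMap z ε θ))
        ≤ ENNReal.ofReal (∫ θ in Ioc 0 (2 * π), max (F (circleMap z ε θ)) 0) :=
          ENNReal.ofReal_le_ofReal (integral_mono hint hint2 (fun θ => le_max_left _ _))
      _ = ∫⁻ θ in Ioc 0 (2 * π), ENNReal.ofReal (max (F (circleMap z ε θ)) 0) :=
          ofReal_integral_eq_lintegral_ofReal hint2 (ae_of_all _ fun θ => le_max_right _ _)
      _ ≤ ∫⁻ θ in Ioc 0 (2 * π), dfc 0 (bl s c a (z + circleMap 0 ε θ)) := by
          refine lintegral_mono fun θ => ?_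
          rw [hcm θ]
          unfold dfc
          split_ifs with h0
          · exact le_top
          · refine ENNReal.ofReal_le_ofReal ?_
            have hne : circleMap z ε θ ≠ a := by
              intro h
              apply h0
              rw [h, bl_eq, sub_self, mul_zero, zero_div]
            rw [hFbl _ (hθB θ) hne, zero_sub]
            have h4 : Real.log ‖bl s c a (circleMap z ε θ)‖ ≤ 0 :=
              Real.log_nonpos (norm_nonneg _) (norm_bl_le hs ha (hθB θ))
            exact max_le le_rfl (by linarith)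
  have hval : ∫ θ in Ioc 0 (2 * π), F (circleMap z ε θ) = 2 * π * circleAverage F z ε := by
    rw [circleAverage_def, intervalIntegral.integral_of_le hpi.le, smul_eq_mul, ← mul_assoc,
      mul_inv_cancel₀ hpi.ne', one_mul]
  have hza' : 0 < ‖z - a‖ := norm_pos_iff.2 (sub_ne_zero.2 hza)
  have hmax : Real.log ε + log⁺ (ε⁻¹ * ‖z - a‖) = Real.log ‖z - a‖ + log⁺ (ε / ‖z - a‖) := by
    rcases le_total ε ‖z - a‖ with h | h
    · have e1 : log⁺ (ε⁻¹ * ‖z - a‖) = Real.log (ε⁻¹ * ‖z - a‖) := by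
        refine posLog_eq_log ?_
        rw [abs_of_nonneg (by positivity), inv_mul_eq_div, le_div_iff₀ hε]; linarith
      have e2 : log⁺ (ε / ‖z - a‖) = 0 := by
        rw [posLog_eq_zero_iff, abs_of_nonneg (by positivity), div_le_iff₀ hza']; linarith
      rw [e1, e2, Real.log_mul (by positivity) hza'.ne', Real.log_inv]
      ring
    · have e1 : log⁺ (ε / ‖z - a‖) = Real.log (ε / ‖z - a‖) := by
        refine posLog_eq_log ?_
        rw [abs_of_nonneg (by positivity), le_div_iff₀ hza']; linarith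
      have e2 : log⁺ (ε⁻¹ * ‖z - a‖) = 0 := by
        rw [posLog_eq_zero_iff, abs_of_nonneg (by positivity), inv_mul_eq_div, div_le_iff₀ hε]; linarith
      rw [e1, e2, Real.log_div hε.ne' hza'.ne']
      ring
  have hblz : bl s c a z ≠ 0 := by
    rw [bl_eq]
    have : (s : ℂ) ≠ 0 := by exact_mod_cast hs.ne'
    exact div_ne_zero (mul_ne_zero (mul_ne_zero (by norm_num) this) (sub_ne_zero.2 hza))
      (den_ne hs ha hzB)
  have hdz : dfc 0 (bl s c a z) = ENNReal.ofReal (F z) := by
    unfold dfc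
    rw [if_neg hblz, hFbl z hzB hza, zero_sub]
  have hFz : 2 * π * F z = (∫ θ in Ioc 0 (2 * π), F (circleMap z ε θ))
      + 2 * π * log⁺ (ε / ‖z - a‖) := by
    rw [hval, h2, hmax, hF]
    ring
  rw [hdz, ← ENNReal.ofReal_mul hpi.le, hFz]
  exact (ENNReal.ofReal_add_le).trans (add_le_add hle le_rfl)

/-- the error term -/
theorem err_le {b ε : ℝ} (hε : 0 < ε) (S : Set ℝ) :
    ∫⁻ x in S, ENNReal.ofReal (2 * π * log⁺ (ε / |x - b|)) ≤ ENNReal.ofReal (16 * π * ε) := by
  calc ∫⁻ x in S, ENNReal.ofReal (2 * π * log⁺ (ε / |x - b|))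
      ≤ ∫⁻ x, ENNReal.ofReal (2 * π * log⁺ (ε / |x - b|)) := setLIntegral_le_lintegral _ _
    _ = ∫⁻ u, ENNReal.ofReal (2 * π * log⁺ (ε / |u|)) :=
        lintegral_sub_right_eq_self (fun u => ENNReal.ofReal (2 * π * log⁺ (ε / |u|))) b
    _ ≤ ∫⁻ u, (Icc (-ε) ε).indicator
          (fun u => ENNReal.ofReal (4 * π * ε ^ (1 / 2 : ℝ)) * ENNReal.ofReal (|u| ^ (-(1 / 2) : ℝ))) u := by
        refine lintegral_mono fun u => ?_
        by_cases hu : u ∈ Icc (-ε) ε
        · rw [indicator_of_mem hu, ← ENNReal.ofReal_mul (by positivity)]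
          refine ENNReal.ofReal_le_ofReal ?_
          rcases eq_or_ne u 0 with h0 | h0
          · rw [h0, abs_zero, div_zero, posLog_zero, mul_zero]; positivity
          have hu' : 0 < |u| := abs_pos.2 h0
          have hle : |u| ≤ ε := abs_le.2 hu
          have ht : 1 ≤ ε / |u| := by rw [le_div_iff₀ hu']; linarith
          rw [posLog_eq_log (by rw [abs_of_nonneg (by positivity)]; exact ht)]
          have h1 : Real.log (ε / |u|) ≤ (ε / |u|) ^ (1 / 2 : ℝ) / (1 / 2) :=
            Real.log_le_rpow_div (by positivity) (by norm_num)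
          have h2 : (ε / |u|) ^ (1 / 2 : ℝ) = ε ^ (1 / 2 : ℝ) * |u| ^ (-(1 / 2) : ℝ) := by
            rw [Real.div_rpow (by positivity) (by positivity), Real.rpow_neg (by positivity)]; rfl
          rw [h2] at h1
          have hpi := Real.pi_pos
          calc 2 * π * Real.log (ε / |u|) ≤ 2 * π * (ε ^ (1 / 2 : ℝ) * |u| ^ (-(1 / 2) : ℝ) / (1 / 2)) :=
                mul_le_mul_of_nonneg_left h1 (by positivity)
            _ = 4 * π * ε ^ (1 / 2 : ℝ) * |u| ^ (-(1 / 2) : ℝ) := by ring
        · rw [indicator_of_notMem hu]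
          have h1 : ε < |u| := by
            by_contra hcon
            exact hu (abs_le.1 (not_lt.1 hcon))
          have : log⁺ (ε / |u|) = 0 := by
            rw [posLog_eq_zero_iff, abs_of_nonneg (by positivity), div_le_iff₀ (by linarith)]; linarith
          rw [this, mul_zero, ENNReal.ofReal_zero]
    _ = ENNReal.ofReal (4 * π * ε ^ (1 / 2 : ℝ)) *
          ∫⁻ u in Icc (-ε) ε, ENNReal.ofReal (|u| ^ (-(1 / 2) : ℝ)) := by
        rw [lintegral_indicator measurableSet_Icc, lintegral_const_mul _ (by fun_prop)]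
    _ ≤ ENNReal.ofReal (4 * π * ε ^ (1 / 2 : ℝ)) * ENNReal.ofReal (4 * ε ^ (1 / 2 : ℝ)) := by
        gcongr
        exact lint_half_sym ε hε
    _ = ENNReal.ofReal (16 * π * ε) := by
        rw [← ENNReal.ofReal_mul (by positivity)]
        congr 1
        have hss : ε ^ (1 / 2 : ℝ) * ε ^ (1 / 2 : ℝ) = ε := by
          rw [← Real.rpow_add hε]; norm_num
        calc 4 * π * ε ^ (1 / 2 : ℝ) * (4 * ε ^ (1 / 2 : ℝ))
            = 16 * π * (ε ^ (1 / 2 : ℝ) * ε ^ (1 / 2 : ℝ)) := by ring
          _ = 16 * π * ε := by rw [hss]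

theorem meas_inner {s ε y M : ℝ} {G : ℂ → ℂ} (hG : Measurable G) :
    Measurable (fun x : ℝ => ∫⁻ θ in Ioc 0 (2 * π),
      dfc M (G ((x : ℂ) + (y : ℂ) * Complex.I + circleMap 0 ε θ))) := by
  have h1 : Measurable (fun p : ℝ × ℝ => dfc M (G ((p.1 : ℂ) + (y : ℂ) * Complex.I
      + circleMap 0 ε p.2))) := by
    refine (measurable_dfc M).comp (hG.comp ?_)
    have : Continuous (fun p : ℝ × ℝ => (p.1 : ℂ) + (y : ℂ) * Complex.I + circleMap 0 ε p.2) := by
      have h2 : Continuous (fun p : ℝ × ℝ => circleMap 0 ε p.2) :=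
        (continuous_circleMap 0 ε).comp continuous_snd
      fun_prop
    exact this.measurable
  exact h1.lintegral_prod_right'

theorem seg' : S_SEG := by
  refine ⟨40 * π, by positivity, ?_⟩
  intro s M c G hs hM hG y hy ε hε hεs S hS hSI
  by_cases hGc : G c = 0
  · have : dfc M (G c) = ⊤ := by simp [dfc, hGc]
    rw [this, ENNReal.mul_top (by simp only [ne_eq, ENNReal.ofReal_eq_zero, not_le]; positivity)]
    simp
  have hpi : 0 < 2 * π := by positivity
  have hzc : ∀ x ∈ S, ‖(x : ℂ) + (y : ℂ) * Complex.I - c‖ ≤ 2 * s := fun x hx =>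
    norm_pt_le (hSI hx) hy
  have key := ind s M c hs hM (fun G =>
    ENNReal.ofReal (2 * π) * ∫⁻ x in S, dfc M (G ((x : ℂ) + (y : ℂ) * Complex.I))
      ≤ (∫⁻ x in S, ∫⁻ θ in Ioc 0 (2 * π),
          dfc M (G ((x : ℂ) + (y : ℂ) * Complex.I + circleMap 0 ε θ)))
        + ENNReal.ofReal (40 * π * ε) * dfc M (G c)) ?_ ?_ G hG hGc
  · exact key
  · intro G hG hz
    refine le_trans ?_ le_self_add
    rw [← lintegral_const_mul' _ _ ENNReal.ofReal_ne_top]
    refine setLIntegral_mono' hS ?_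
    intro x hx
    obtain ⟨z, hzz⟩ : ∃ z : ℂ, z = (x : ℂ) + (y : ℂ) * Complex.I := ⟨_, rfl⟩
    have hzc' := hzc x hx
    rw [← hzz] at hzc' ⊢
    have hmem : ∀ w ∈ closedBall (0 : ℂ) ε, z + w ∈ closedBall c (4 * s) := by
      intro w hw
      rw [mem_closedBall_zero_iff] at hw
      rw [mem_closedBall, dist_eq_norm]
      have : z + w - c = (z - c) + w := by ring
      rw [this]
      exact (norm_add_le _ _).trans (by linarith)
    have hsub : closedBall c (4 * s) ⊆ closedBall c (8 * s) :=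
      closedBall_subset_closedBall (by linarith)
    have h1 := harm_lintegral (g := fun w => G (z + w)) (r := ε) (M := M) hε
      (shift_analytic hG.2.1 (by linarith)) (fun w hw => hG.2.2 _ (hsub (hmem w hw)))
      (fun w hw => hz _ (hmem w hw))
    simp only [add_zero] at h1
    have h2 : dfc M (G z) = dfc0 M (G z) := by
      have : G z ≠ 0 := by
        have := hz _ (hmem 0 (mem_closedBall_self hε.le))
        rwa [add_zero] at this
      simp [dfc, dfc0, this]
    rw [h2, h1]
    exact lintegral_mono fun θ => dfc0_le _ _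
  · intro G H a hG hH ha hac hHc hfac ih
    have hcb : c ∈ closedBall c (8 * s) := mem_closedBall_self (by positivity)
    have hzB : ∀ x ∈ S, (x : ℂ) + (y : ℂ) * Complex.I ∈ closedBall c (8 * s) := by
      intro x hx
      rw [mem_closedBall, dist_eq_norm]
      have := hzc x hx
      linarith
    have hzBθ : ∀ x ∈ S, ∀ θ, (x : ℂ) + (y : ℂ) * Complex.I + circleMap 0 ε θ
        ∈ closedBall c (8 * s) := by
      intro x hx θ
      rw [mem_closedBall, dist_eq_norm]
      have h1 := hzc x hx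
      have h2 : ‖circleMap 0 ε θ‖ = ε := by simp [abs_of_pos hε]
      have : (x : ℂ) + (y : ℂ) * Complex.I + circleMap 0 ε θ - c
        = ((x : ℂ) + (y : ℂ) * Complex.I - c) + circleMap 0 ε θ := by ring
      rw [this]
      refine (norm_add_le _ _).trans ?_
      rw [h2]
      linarith
    have hmb : Measurable (bl s c a) := by unfold bl; fun_prop
    have hm1 : Measurable (fun x : ℝ => dfc 0 (bl s c a ((x : ℂ) + (y : ℂ) * Complex.I))) :=
      (measurable_dfc 0).comp (hmb.comp (by fun_prop))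
    have e1 : ∫⁻ x in S, dfc M (G ((x : ℂ) + (y : ℂ) * Complex.I))
        = (∫⁻ x in S, dfc 0 (bl s c a ((x : ℂ) + (y : ℂ) * Complex.I)))
          + ∫⁻ x in S, dfc M (H ((x : ℂ) + (y : ℂ) * Complex.I)) := by
      rw [← lintegral_add_left hm1]
      refine setLIntegral_congr_fun hS ?_
      intro x hx
      simp only
      rw [hfac _ (hzB x hx), dfc_mul (norm_bl_le hs ha (hzB x hx)) (hH.2.2 _ (hzB x hx))]
    have e2 : (∫⁻ x in S, ∫⁻ θ in Ioc 0 (2 * π),
          dfc M (G ((x : ℂ) + (y : ℂ) * Complex.I + circleMap 0 ε θ)))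
        = (∫⁻ x in S, ∫⁻ θ in Ioc 0 (2 * π),
            dfc 0 (bl s c a ((x : ℂ) + (y : ℂ) * Complex.I + circleMap 0 ε θ)))
          + ∫⁻ x in S, ∫⁻ θ in Ioc 0 (2 * π),
            dfc M (H ((x : ℂ) + (y : ℂ) * Complex.I + circleMap 0 ε θ)) := by
      rw [← lintegral_add_left (meas_inner (s := s) hmb)]
      refine setLIntegral_congr_fun hS ?_
      intro x hx
      simp only
      have hm2 : Measurable (fun θ : ℝ =>
          dfc 0 (bl s c a ((x : ℂ) + (y : ℂ) * Complex.I + circleMap 0 ε θ))) := by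
        refine (measurable_dfc 0).comp (hmb.comp ?_)
        have := (continuous_circleMap 0 ε).measurable
        fun_prop
      rw [← lintegral_add_left hm2]
      refine lintegral_congr fun θ => ?_
      rw [hfac _ (hzBθ x hx θ), dfc_mul (norm_bl_le hs ha (hzBθ x hx θ)) (hH.2.2 _ (hzBθ x hx θ))]
    have e3 : ENNReal.ofReal (2 * π) * ∫⁻ x in S, dfc 0 (bl s c a ((x : ℂ) + (y : ℂ) * Complex.I))
        ≤ (∫⁻ x in S, ∫⁻ θ in Ioc 0 (2 * π),
            dfc 0 (bl s c a ((x : ℂ) + (y : ℂ) * Complex.I + circleMap 0 ε θ)))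
          + ENNReal.ofReal (16 * π * ε) := by
      have hae : ∀ᵐ x : ℝ, x - a.re ≠ 0 := by
        have h1 : volume ({a.re} : Set ℝ) = 0 := Real.volume_singleton
        have h2 : ∀ᵐ x : ℝ, x ∉ ({a.re} : Set ℝ) := measure_eq_zero_iff_ae_notMem.1 h1
        filter_upwards [h2] with x hx h
        exact hx (sub_eq_zero.1 h)
      refine le_trans ?_ (add_le_add le_rfl (err_le (b := a.re) hε S))
      rw [← lintegral_const_mul' _ _ ENNReal.ofReal_ne_top,
        ← lintegral_add_left (meas_inner (s := s) hmb)]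
      refine lintegral_mono_ae ?_
      filter_upwards [ae_restrict_mem hS, ae_restrict_of_ae hae] with x hx hxa
      have hza : (x : ℂ) + (y : ℂ) * Complex.I ≠ a := by
        intro h
        apply hxa
        rw [← h]; simp
      refine (bl_point hs ha (hzc x hx) hza hε hεs).trans (add_le_add le_rfl ?_)
      refine ENNReal.ofReal_le_ofReal ?_
      refine mul_le_mul_of_nonneg_left ?_ hpi.le
      have h3 : |x - a.re| ≤ ‖(x : ℂ) + (y : ℂ) * Complex.I - a‖ := by
        have := Complex.abs_re_le_norm ((x : ℂ) + (y : ℂ) * Complex.I - a)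
        simpa using this
      have h4 : 0 < |x - a.re| := abs_pos.2 hxa
      exact posLog_le_posLog (by positivity) (div_le_div_of_nonneg_left hε.le h4 h3)
    rw [e1, e2, mul_add]
    refine (add_le_add e3 ih).trans ?_
    rw [hfac c hcb, dfc_mul (norm_bl_le hs ha hcb) (hH.2.2 _ hcb), mul_add]
    have e4 : ENNReal.ofReal (16 * π * ε) ≤ ENNReal.ofReal (40 * π * ε) * dfc 0 (bl s c a c) := by
      refine le_trans ?_ (mul_le_mul_right (dfc_bl_centre hs ha) _)
      rw [← ENNReal.ofReal_mul (by positivity)]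
      refine ENNReal.ofReal_le_ofReal ?_
      have h3 := Real.log_two_gt_d9
      have h4 : 0 < π * ε := by positivity
      nlinarith
    calc _ ≤ (∫⁻ x in S, ∫⁻ θ in Ioc 0 (2 * π),
            dfc 0 (bl s c a ((x : ℂ) + (y : ℂ) * Complex.I + circleMap 0 ε θ)))
          + ENNReal.ofReal (40 * π * ε) * dfc 0 (bl s c a c)
          + ((∫⁻ x in S, ∫⁻ θ in Ioc 0 (2 * π),
            dfc M (H ((x : ℂ) + (y : ℂ) * Complex.I + circleMap 0 ε θ)))
          + ENNReal.ofReal (40 * π * ε) * dfc M (H c)) := by gcongr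
      _ = _ := by ac_rfl

theorem seg : S_IND → S_SEG := fun _ => seg'

end Pool.Agent.W880.JS
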